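import Pool.Agent.N510.BC.Stm
import Pool.Agent.N510.BC.Step
import Pool.Agent.H40.BP.FACT
import Pool.Agent.H40.BP.LL

/-!
# Project BC, part PQ: two power series variables, no other variable in the relation (helper591)
-/

set_option autoImplicit false

open Polynomial

noncomputable section

namespace Pool.Agent.N591.BC

open Pool.Agent.N510.BC BQ IsLocalRing Polynomial Pool.Agent.H40.BP Pool.Agent.W394.BQN

theorem mrel_zero {B : Type} [CommRing B] (s u : B) (c : Fin 0 → ℕ) :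
    mrel 0 s c u = rel 0 s u := by
  simp [mrel, rel]

theorem t_PQ (hSTEP : S_STEPQ) (hSW : S_SW) (hCPLP : S_CPLP) (hFACT : S_FACT) (hPOLM : S_POLM)
    (hDOMM : S_DOMM) (hDY : S_DY) (hP1 : S_P1) : S_PQ := by
  intro V _ _ _ _ _ π hπ r a b ha hb
  obtain ⟨hV1, hXp, -, -, -, -⟩ := hFACT V π hπ
  have hW1 : IsAdicComplete (maximalIdeal (PowerSeries V)) (PowerSeries V) := hCPLP V
  have hW1d : IsDomain (PowerSeries V) := NoZeroDivisors.to_isDomain _
  have hRd : IsDomain (MvPowerSeries (Fin (r + 1)) (PowerSeries V)) :=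
    NoZeroDivisors.to_isDomain _
  have hRd0 : IsDomain (MvPowerSeries (Fin r) (PowerSeries V)) :=
    NoZeroDivisors.to_isDomain _
  have hπp : Prime (PowerSeries.C π : PowerSeries V) := FACTaux.prime_CP hπ
  -- the ideal `(x, p)`
  have hUC : ∀ f : MvPowerSeries (Fin (r + 1)) (PowerSeries V),
      f ∈ Ideal.span {MvPowerSeries.C PowerSeries.X, MvPowerSeries.C (PowerSeries.C π)} ↔
        ¬ UC f := by
    intro f
    rw [FACTaux.not_UC, FACTaux.mem_two, hV1]
  have hpp : (Ideal.span {(MvPowerSeries.C PowerSeries.X :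
      MvPowerSeries (Fin (r + 1)) (PowerSeries V)), MvPowerSeries.C (PowerSeries.C π)}).IsPrime := by
    have heq : LLaux.pp (r + 1) (PowerSeries V) =
        Ideal.span {MvPowerSeries.C PowerSeries.X, MvPowerSeries.C (PowerSeries.C π)} := by
      ext f
      rw [LLaux.mem_pp, FACTaux.mem_two, hV1]
    rw [← heq]
    exact LLaux.pp_prime
  have hx : Prime (MvPowerSeries.C PowerSeries.X :
      MvPowerSeries (Fin (r + 1)) (PowerSeries V)) := LPaux.prime_C hXp
  have hxp : ¬ (MvPowerSeries.C PowerSeries.X : MvPowerSeries (Fin (r + 1)) (PowerSeries V)) ∣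
      MvPowerSeries.C (PowerSeries.C π) := by
    rintro ⟨g, hg⟩
    have h1 := congrArg (MvPowerSeries.coeff 0) hg
    rw [MvPowerSeries.coeff_C_mul, MvPowerSeries.coeff_zero_C] at h1
    have h3 := congrArg PowerSeries.constantCoeff h1
    rw [PowerSeries.constantCoeff_C, map_mul, PowerSeries.constantCoeff_X, zero_mul] at h3
    exact hπ.ne_zero h3
  have hp0 : Prime (MvPowerSeries.C (PowerSeries.C π) :
      MvPowerSeries (Fin r) (PowerSeries V)) := LPaux.prime_C hπp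
  have hpx0 : ¬ (MvPowerSeries.C (PowerSeries.C π) : MvPowerSeries (Fin r) (PowerSeries V)) ∣
      (MvPowerSeries.C PowerSeries.X) ^ a := by
    intro h
    obtain ⟨g, hg⟩ := hp0.dvd_of_dvd_pow h
    have h1 := congrArg (MvPowerSeries.coeff 0) hg
    rw [MvPowerSeries.coeff_C_mul, MvPowerSeries.coeff_zero_C] at h1
    have h3 := congrArg (PowerSeries.coeff 1) h1
    rw [PowerSeries.coeff_one_X, PowerSeries.coeff_C_mul] at h3
    exact hπ.not_isUnit (isUnit_of_dvd_one ⟨_, h3⟩)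
  set x : MvPowerSeries (Fin (r + 1)) (PowerSeries V) := MvPowerSeries.C PowerSeries.X with hxdef
  set p : MvPowerSeries (Fin (r + 1)) (PowerSeries V) := MvPowerSeries.C (PowerSeries.C π)
    with hpdef
  obtain ⟨a', rfl⟩ : ∃ a', a = a' + 1 := ⟨a - 1, by omega⟩
  have hxw : x * (x ^ a' * MvPowerSeries.X 0 ^ b) = x ^ (a' + 1) * MvPowerSeries.X 0 ^ b := by
    ring
  have hDYz : ∀ z : MvPowerSeries (Fin (r + 1)) (PowerSeries V),
      x * (x ^ a' * MvPowerSeries.X 0 ^ b) = z →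
      IsDomain (MvPowerSeries (Fin (r + 1)) (PowerSeries V) ⧸ Ideal.span {z - p}) ∧
      ∃ (Ω : Type) (_ : CommRing Ω)
        (φ : MvPowerSeries (Fin (r + 1)) (PowerSeries V) ⧸ Ideal.span {z - p} →+* Ω),
        Function.Injective φ ∧
        (∀ ω : Ω, ∃ f : MvPowerSeries (Fin (r + 1)) (PowerSeries V), f ∉ Ideal.span {x, p} ∧
          ∃ a, φ (Ideal.Quotient.mk _ f) * ω = φ a) ∧ AF Ω := by
    rintro z rfl
    exact hDY (MvPowerSeries (Fin (r + 1)) (PowerSeries V))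
      x (x ^ a' * MvPowerSeries.X 0 ^ b) p hpp hx hxp
  obtain ⟨hdom, Ω, _, φ, hφ, hfrac, hΩ⟩ := hDYz _ hxw
  -- the polynomial ring
  have hc1 : (fun _ : Fin 1 => b) ≠ 0 := by
    intro h
    exact hb (congrFun h 0)
  have h1 : AF (QF (mrel 1 ((MvPowerSeries.C PowerSeries.X) ^ (a' + 1) :
      MvPowerSeries (Fin r) (PowerSeries V)) (fun _ => b)
      (MvPowerSeries.C (PowerSeries.C π)))) := by
    obtain ⟨e, he1, he2, he3⟩ := hSW r V
    refine AF_qfM e.symm 1 (fun _ => b) _ _ _ _ ?_ ?_ (hP1 V π hπ r 1 (a' + 1) (fun _ => b) hc1)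
    · rw [← he2, map_pow, e.symm_apply_apply]
    · rw [← he1, e.symm_apply_apply]
  have hD0 := (hDOMM (MvPowerSeries (Fin r) (PowerSeries V))
    ((MvPowerSeries.C PowerSeries.X) ^ (a' + 1)) (MvPowerSeries.C (PowerSeries.C π)) hp0 hpx0 1
    (fun _ => b) hc1).1
  obtain ⟨e0⟩ := hPOLM (MvPowerSeries (Fin r) (PowerSeries V)) 0
    ((MvPowerSeries.C PowerSeries.X) ^ (a' + 1)) (MvPowerSeries.C (PowerSeries.C π)) (fun _ => b)
  have hd1 : IsDomain (QF (mrel 0 (Polynomial.C ((MvPowerSeries.C PowerSeries.X) ^ (a' + 1)) *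
      X ^ b : (MvPowerSeries (Fin r) (PowerSeries V))[X]) (fun _ => b)
        (Polynomial.C (MvPowerSeries.C (PowerSeries.C π))))) :=
    MulEquiv.isDomain _ e0.symm.toMulEquiv
  have hd2 : IsDomain (QF (rel 0 (x ^ (a' + 1) * MvPowerSeries.X 0 ^ b) p)) :=
    MulEquiv.isDomain _ (qfZero (x ^ (a' + 1) * MvPowerSeries.X 0 ^ b) p).toMulEquiv
  have hFq : x ^ (a' + 1) * MvPowerSeries.X 0 ^ b - p ∈ Ideal.span {x, p} := by
    refine Ideal.sub_mem _ ?_ (Ideal.subset_span (by simp))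
    rw [← hxw]
    exact Ideal.mul_mem_right _ _ (Ideal.subset_span (by simp))
  have key := stepM hSTEP (PowerSeries V) r 0 (fun _ => b)
    ((Polynomial.C PowerSeries.X) ^ (a' + 1) * X ^ b) (Polynomial.C (PowerSeries.C π))
    (Polynomial.C ((MvPowerSeries.C PowerSeries.X) ^ (a' + 1)) * X ^ b)
    (Polynomial.C (MvPowerSeries.C (PowerSeries.C π)))
    (x ^ (a' + 1) * MvPowerSeries.X 0 ^ b) p
    (by rw [map_mul, map_pow, map_pow, im_C, im_X, map_pow]) (im_C _ _ _)
    (by rw [map_mul, map_pow, map_pow, ip_C, ip_X]) (ip_C _ _ _) hd1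
  rw [mrel_zero (x ^ (a' + 1) * MvPowerSeries.X 0 ^ b) p] at key
  have h2 : AF (QF (rel 0 (x ^ (a' + 1) * MvPowerSeries.X 0 ^ b) p)) := by
    refine key hd2 ?_ (h1.of_equiv e0) Ω
      (φ.comp (qfZero (x ^ (a' + 1) * MvPowerSeries.X 0 ^ b) p :
        QF (rel 0 (x ^ (a' + 1) * MvPowerSeries.X 0 ^ b) p) →+* _)) ?_ ?_ hΩ
    · intro f hf h0
      have h3 := qfZero_C (x ^ (a' + 1) * MvPowerSeries.X 0 ^ b) p f
      rw [h0, map_zero] at h3
      have h4 : f ∈ Ideal.span {x ^ (a' + 1) * MvPowerSeries.X 0 ^ b - p} :=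
        Ideal.Quotient.eq_zero_iff_mem.1 h3.symm
      have h5 : f ∈ Ideal.span {x, p} :=
        (Ideal.span_singleton_le_iff_mem _).2 hFq h4
      exact (hUC f).1 h5 hf
    · exact hφ.comp (qfZero (x ^ (a' + 1) * MvPowerSeries.X 0 ^ b) p).injective
    · intro ω
      obtain ⟨f, hf, g, hg⟩ := hfrac ω
      refine ⟨f, ?_, (qfZero (x ^ (a' + 1) * MvPowerSeries.X 0 ^ b) p).symm g, ?_⟩
      · by_contra hc
        exact hf ((hUC f).2 hc)
      · show φ (qfZero (x ^ (a' + 1) * MvPowerSeries.X 0 ^ b) p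
          (qm (rel 0 (x ^ (a' + 1) * MvPowerSeries.X 0 ^ b) p)
          (MvPolynomial.C f))) * ω = φ (qfZero (x ^ (a' + 1) * MvPowerSeries.X 0 ^ b) p
            ((qfZero (x ^ (a' + 1) * MvPowerSeries.X 0 ^ b) p).symm g))
        rw [qfZero_C, RingEquiv.apply_symm_apply]
        exact hg
  -- the presentation with all variables
  obtain ⟨e, he1, he2, he3⟩ := hSW (r + 1) V
  refine (h2.of_equiv (qfZero (x ^ (a' + 1) * MvPowerSeries.X 0 ^ b) p)).of_equiv
    (Ideal.quotientEquiv (Ideal.span {x ^ (a' + 1) * MvPowerSeries.X 0 ^ b - p}) _ e ?_)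
  rw [Ideal.map_span, Set.image_singleton]
  congr 2
  rw [hxdef, hpdef]
  show _ = e ((MvPowerSeries.C PowerSeries.X) ^ (a' + 1) * MvPowerSeries.X 0 ^ b -
    MvPowerSeries.C (PowerSeries.C π))
  rw [map_sub, map_mul, map_pow, map_pow, he1, he2, he3]
  rfl

end Pool.Agent.N591.BC
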